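import Mathlib
import Pool.Agent.Helper981.KP.ZY

/-!
Entropies of discrete random variables with countable ranges: passage to the limit from the finite
case (submodularity, monotonicity, the Zhang–Yeung inequality).
-/

set_option autoImplicit false

namespace Pool.Agent.Q333.SC

open Finset Filter Topology Real Pool.Agent.Helper981.KP

variable {n : ℕ}

/-- `P` is the joint distribution of discrete random variables `A_i`, `i < n`, whose (countable)
ranges are identified with sets of natural numbers. -/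
def IsJoint (P : (Fin n → ℕ) → ℝ) : Prop := (∀ a, 0 ≤ P a) ∧ HasSum P 1

/-- The probability that `A_i = b_i` for all `i ∈ S`. -/
noncomputable def marginal (P : (Fin n → ℕ) → ℝ) (S : Finset (Fin n)) (b : S → ℕ) : ℝ :=
  ∑' a : Fin n → ℕ, if (∀ i : S, a i = b i) then P a else 0

/-- The entropy of `(A_i)_{i ∈ S}` is finite. -/
def FiniteEntropy (P : (Fin n → ℕ) → ℝ) (S : Finset (Fin n)) : Prop :=
  Summable fun b : S → ℕ => negMulLog (marginal P S b)

/-- The Shannon entropy (base 2) of `(A_i)_{i ∈ S}`. -/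
noncomputable def entropy (P : (Fin n → ℕ) → ℝ) (S : Finset (Fin n)) : ℝ :=
  (∑' b : S → ℕ, negMulLog (marginal P S b)) / log 2

/-- Entropic functions: `f(S) = H(A_S)` for discrete random variables with countable ranges and
finite entropies. -/
def IsEntropic (f : Finset (Fin n) → ℝ) : Prop :=
  ∃ P : (Fin n → ℕ) → ℝ, IsJoint P ∧ ∀ S, FiniteEntropy P S ∧ f S = entropy P S

/-! ### Truncation -/

/-- the box `{0, ..., N - 1} ^ n` -/
noncomputable def box (n N : ℕ) : Finset (Fin n → ℕ) := Fintype.piFinset fun _ => range N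

lemma mem_box {N : ℕ} {a : Fin n → ℕ} : a ∈ box n N ↔ ∀ i, a i < N := by
  simp [box]

/-- the truncated marginal -/
noncomputable def bm (P : (Fin n → ℕ) → ℝ) (S : Finset (Fin n)) (N : ℕ) (b : S → ℕ) : ℝ :=
  ∑ a ∈ box n N, if (∀ i : S, a i = b i) then P a else 0

lemma box_tendsto : Tendsto (box n) atTop atTop := by
  refine tendsto_atTop_finset_of_monotone ?_ ?_
  · intro N N' h a ha
    rw [mem_box] at ha ⊢
    exact fun i => lt_of_lt_of_le (ha i) h
  · intro a
    refine ⟨∑ i, a i + 1, ?_⟩
    rw [mem_box]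
    intro i
    have := single_le_sum (f := a) (fun j _ => Nat.zero_le _) (mem_univ i)
    omega

lemma ite_nonneg {P : (Fin n → ℕ) → ℝ} (hP : ∀ a, 0 ≤ P a) (S : Finset (Fin n)) (b : S → ℕ)
    (a : Fin n → ℕ) : 0 ≤ if (∀ i : S, a i = b i) then P a else 0 := by
  split_ifs
  · exact hP a
  · exact le_rfl

lemma ite_summable {P : (Fin n → ℕ) → ℝ} (hP : IsJoint P) (S : Finset (Fin n)) (b : S → ℕ) :
    Summable fun a : Fin n → ℕ => if (∀ i : S, a i = b i) then P a else 0 := by
  refine Summable.of_nonneg_of_le (ite_nonneg hP.1 S b) (fun a => ?_) hP.2.summable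
  split_ifs
  · exact le_rfl
  · exact hP.1 a

lemma bm_tendsto {P : (Fin n → ℕ) → ℝ} (hP : IsJoint P) (S : Finset (Fin n)) (b : S → ℕ) :
    Tendsto (fun N => bm P S N b) atTop (𝓝 (marginal P S b)) :=
  (ite_summable hP S b).hasSum.comp box_tendsto

lemma bm_nonneg {P : (Fin n → ℕ) → ℝ} (hP : IsJoint P) (S : Finset (Fin n)) (N : ℕ) (b : S → ℕ) :
    0 ≤ bm P S N b := sum_nonneg fun a _ => ite_nonneg hP.1 S b a

lemma bm_le {P : (Fin n → ℕ) → ℝ} (hP : IsJoint P) (S : Finset (Fin n)) (N : ℕ) (b : S → ℕ) :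
    bm P S N b ≤ marginal P S b :=
  (ite_summable hP S b).sum_le_tsum _ fun a _ => ite_nonneg hP.1 S b a

lemma marginal_nonneg {P : (Fin n → ℕ) → ℝ} (hP : IsJoint P) (S : Finset (Fin n)) (b : S → ℕ) :
    0 ≤ marginal P S b := tsum_nonneg (ite_nonneg hP.1 S b)

lemma sum_bm_le {P : (Fin n → ℕ) → ℝ} (hP : IsJoint P) (S : Finset (Fin n)) (N : ℕ)
    (s : Finset (S → ℕ)) : ∑ b ∈ s, bm P S N b ≤ 1 := by
  classical
  unfold bm
  rw [sum_comm]
  calc ∑ a ∈ box n N, ∑ b ∈ s, (if (∀ i : S, a i = b i) then P a else 0)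
      ≤ ∑ a ∈ box n N, P a := by
        refine sum_le_sum fun a _ => ?_
        by_cases h : (fun i : S => a i) ∈ s
        · rw [sum_eq_single_of_mem _ h]
          · simp
          · intro b _ hb
            rw [if_neg]
            intro h'
            exact hb (funext fun i => (h' i).symm)
        · rw [sum_eq_zero]
          · exact hP.1 a
          · intro b hb
            rw [if_neg]
            intro h'
            exact h (by
              have : (fun i : S => a i) = b := funext h'
              rw [this]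
              exact hb)
    _ ≤ ∑' a, P a := hP.2.summable.sum_le_tsum _ fun a _ => hP.1 a
    _ = 1 := hP.2.tsum_eq

lemma sum_marginal_le {P : (Fin n → ℕ) → ℝ} (hP : IsJoint P) (S : Finset (Fin n))
    (s : Finset (S → ℕ)) : ∑ b ∈ s, marginal P S b ≤ 1 :=
  le_of_tendsto (tendsto_finsetSum s fun b _ => bm_tendsto hP S b)
    (Eventually.of_forall fun N => sum_bm_le hP S N s)

lemma marginal_summable {P : (Fin n → ℕ) → ℝ} (hP : IsJoint P) (S : Finset (Fin n)) :
    Summable (marginal P S) :=
  summable_of_sum_le (marginal_nonneg hP S) (sum_marginal_le hP S)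

lemma marginal_le_one {P : (Fin n → ℕ) → ℝ} (hP : IsJoint P) (S : Finset (Fin n)) (b : S → ℕ) :
    marginal P S b ≤ 1 := by
  have := sum_marginal_le hP S {b}
  simpa using this

lemma neg_bound {x y : ℝ} (hx : 0 ≤ x) (hxy : x ≤ y) (hy : y ≤ 1) :
    |negMulLog x| ≤ negMulLog y + y := by
  have h1 : 0 ≤ negMulLog x := negMulLog_nonneg hx (hxy.trans hy)
  rw [abs_of_nonneg h1]
  rcases eq_or_lt_of_le hx with rfl | hx0
  · simp only [negMulLog_zero]
    exact add_nonneg (negMulLog_nonneg hxy hy) hxy
  · have hy0 : 0 < y := lt_of_lt_of_le hx0 hxy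
    have h2 : log (y / x) ≤ y / x - 1 := log_le_sub_one_of_pos (by positivity)
    rw [log_div hy0.ne' hx0.ne'] at h2
    have h3 : x * (log y - log x) ≤ y - x := by
      calc x * (log y - log x) ≤ x * (y / x - 1) := mul_le_mul_of_nonneg_left h2 hx
        _ = y - x := by
          field_simp
    have h4 : log y ≤ 0 := log_nonpos hy0.le hy
    have h5 : x * (-log y) ≤ y * (-log y) := mul_le_mul_of_nonneg_right hxy (by linarith)
    unfold negMulLog
    nlinarith

lemma entropy_tendsto {P : (Fin n → ℕ) → ℝ} (hP : IsJoint P) (S : Finset (Fin n))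
    (hf : FiniteEntropy P S) :
    Tendsto (fun N => ∑' b : S → ℕ, negMulLog (bm P S N b)) atTop
      (𝓝 (∑' b : S → ℕ, negMulLog (marginal P S b))) := by
  refine tendsto_tsum_of_dominated_convergence
    (bound := fun b => negMulLog (marginal P S b) + marginal P S b)
    (hf.add (marginal_summable hP S))
    (fun b => (continuous_negMulLog.tendsto _).comp (bm_tendsto hP S b)) ?_
  refine Eventually.of_forall fun N b => ?_
  rw [Real.norm_eq_abs]
  exact neg_bound (bm_nonneg hP S N b) (bm_le hP S N b) (marginal_le_one hP S b)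

/-- the entropy of the truncation in the notation of the finite theory -/
lemma HV_box (P : (Fin n → ℕ) → ℝ) (S : Finset (Fin n)) (N : ℕ) :
    HV (fun a : box n N => P a) (fun i a => (a : Fin n → ℕ) i) S =
      ∑' b : S → ℕ, negMulLog (bm P S N b) := by
  classical
  set g : box n N → (S → ℕ) := fun a i => (a : Fin n → ℕ) i with hg
  rw [HV_eq _ _ S g (by
    intro a a'
    rw [hg, funext_iff]
    simp)]
  have hmg : ∀ a : box n N, mg (fun a : box n N => P a) g a = bm P S N (g a) := by
    intro a
    unfold mg bm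
    rw [← sum_coe_sort (box n N) (fun x : Fin n → ℕ => if (∀ i : S, x i = g a i) then P x else 0)]
    refine sum_congr rfl fun x _ => ?_
    have : (g x = g a) ↔ ∀ i : S, (x : Fin n → ℕ) i = g a i := by
      rw [funext_iff]
    simp only [this]
  rw [tsum_eq_sum (s := univ.image g)]
  · have h1 : ∀ b ∈ univ.image g, negMulLog (bm P S N b) =
        ∑ a with g a = b, (P a) * (-log (bm P S N (g a))) := by
      intro b _
      have h2 : ∑ a with g a = b, (P (a : Fin n → ℕ)) * (-log (bm P S N (g a))) =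
          ∑ a with g a = b, (P (a : Fin n → ℕ)) * (-log (bm P S N b)) := by
        refine sum_congr rfl fun a ha => ?_
        have : g a = b := by simpa using ha
        rw [this]
      rw [h2, ← sum_mul]
      have h3 : ∑ a with g a = b, P (a : Fin n → ℕ) = bm P S N b := by
        unfold bm
        rw [← sum_coe_sort (box n N) (fun x : Fin n → ℕ => if (∀ i : S, x i = b i) then P x else 0),
          sum_filter]
        refine sum_congr rfl fun x _ => ?_
        have : (g x = b) ↔ ∀ i : S, (x : Fin n → ℕ) i = b i := by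
          rw [funext_iff]
        simp only [this]
      rw [h3]
      unfold negMulLog
      ring
    rw [sum_congr rfl h1]
    rw [sum_fiberwise_of_maps_to (s := (univ : Finset (box n N))) (t := univ.image g) (g := g)
      (fun a _ => mem_image_of_mem g (mem_univ a))
      (fun a => (P (a : Fin n → ℕ)) * (-log (bm P S N (g a))))]
    unfold Hf
    refine sum_congr rfl fun a _ => ?_
    rw [hmg]
  · intro b hb
    have : bm P S N b = 0 := by
      unfold bm
      refine sum_eq_zero fun a ha => ?_
      rw [if_neg]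
      intro h
      apply hb
      rw [mem_image]
      exact ⟨⟨a, ha⟩, mem_univ _, funext h⟩
    rw [this, negMulLog_zero]

/-! ### Inequalities -/

/-- the entropies of the truncated variables -/
noncomputable def hN (P : (Fin n → ℕ) → ℝ) (N : ℕ) (S : Finset (Fin n)) : ℝ :=
  HV (fun a : box n N => P a) (fun i a => (a : Fin n → ℕ) i) S

lemma hN_tendsto {P : (Fin n → ℕ) → ℝ} (hP : IsJoint P) (S : Finset (Fin n))
    (hf : FiniteEntropy P S) :
    Tendsto (fun N => hN P N S / log 2) atTop (𝓝 (entropy P S)) := by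
  unfold hN entropy
  simp only [HV_box]
  exact (entropy_tendsto hP S hf).div_const _

lemma log2_pos : (0 : ℝ) < log 2 := log_pos (by norm_num)

lemma Hf_mono {Ω : Type*} [Fintype Ω] {α β : Type*} [DecidableEq α] [DecidableEq β]
    (w : Ω → ℝ) (hw : ∀ ω, 0 ≤ w ω) (f : Ω → α) (g : Ω → β)
    (h : ∀ ω ω', f ω = f ω' → g ω = g ω') : Hf w g ≤ Hf w f := by
  unfold Hf
  refine sum_le_sum fun ω _ => ?_
  rcases eq_or_lt_of_le (hw ω) with h0 | h0
  · rw [← h0]
    simp
  · refine mul_le_mul_of_nonneg_left (neg_le_neg ?_) h0.le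
    refine log_le_log (lt_of_lt_of_le h0 (le_mg w hw f ω)) ?_
    unfold mg
    refine sum_le_sum fun ω' _ => ?_
    by_cases h1 : f ω' = f ω
    · rw [if_pos h1, if_pos (h _ _ h1)]
    · rw [if_neg h1]
      split_ifs
      · exact hw ω'
      · exact le_rfl

lemma HV_mono {Ω : Type*} [Fintype Ω] {k : ℕ} (w : Ω → ℝ) (hw : ∀ ω, 0 ≤ w ω)
    (V : Fin k → Ω → ℕ) {S T : Finset (Fin k)} (h : S ⊆ T) : HV w V S ≤ HV w V T := by
  unfold HV
  refine Hf_mono w hw _ _ fun ω ω' h' => ?_
  rw [tup_eq_iff] at h' ⊢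
  exact fun i hi => h' i (h hi)

lemma HV_comp {Ω : Type*} [Fintype Ω] {k l : ℕ} (w : Ω → ℝ)
    (V : Fin k → Ω → ℕ) (x : Fin l → Fin k) (T : Finset (Fin l)) :
    HV w (fun j => V (x j)) T = HV w V (T.image x) := by
  rw [HV_eq w (fun j => V (x j)) T (tup (fun j => V (x j)) T) (fun ω ω' => tup_eq_iff _ _ _ _)]
  symm
  apply HV_eq
  intro ω ω'
  rw [tup_eq_iff]
  simp

/-- polymatroids -/
def IsPolymatroid (f : Finset (Fin n) → ℝ) : Prop :=
  f ∅ = 0 ∧ (∀ S, 0 ≤ f S) ∧ (∀ S T, S ⊆ T → f S ≤ f T) ∧
    ∀ S T, f (S ∩ T) + f (S ∪ T) ≤ f S + f T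

theorem entropic_polymatroid {f : Finset (Fin n) → ℝ} (hf : IsEntropic f) : IsPolymatroid f := by
  obtain ⟨P, hP, h⟩ := hf
  have hlim : ∀ S, Tendsto (fun N => hN P N S / log 2) atTop (𝓝 (f S)) := by
    intro S
    rw [(h S).2]
    exact hN_tendsto hP S (h S).1
  have hw : ∀ N, ∀ a : box n N, 0 ≤ P a := fun N a => hP.1 a
  refine ⟨?_, ?_, ?_, ?_⟩
  · rw [(h ∅).2]
    unfold entropy
    have h1 : ∀ b : (∅ : Finset (Fin n)) → ℕ, negMulLog (marginal P ∅ b) = 0 := by
      intro b
      have : marginal P ∅ b = 1 := by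
        unfold marginal
        simp [hP.2.tsum_eq]
      rw [this, negMulLog_one]
    simp [h1]
  · intro S
    rw [(h S).2]
    unfold entropy
    refine div_nonneg (tsum_nonneg fun b => ?_) log2_pos.le
    exact negMulLog_nonneg (marginal_nonneg hP S b) (marginal_le_one hP S b)
  · intro S T hST
    refine le_of_tendsto_of_tendsto' (hlim S) (hlim T) fun N => ?_
    exact div_le_div_of_nonneg_right (HV_mono _ (hw N) _ hST) log2_pos.le
  · intro S T
    refine le_of_tendsto_of_tendsto' ((hlim (S ∩ T)).add (hlim (S ∪ T)))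
      ((hlim S).add (hlim T)) fun N => ?_
    rw [← add_div, ← add_div]
    refine div_le_div_of_nonneg_right ?_ log2_pos.le
    have := HV_submod (fun a : box n N => P a) (hw N) (fun i a => (a : Fin n → ℕ) i)
      S T (S ∩ T) (S ∪ T) S T (by
        ext i
        simp only [mem_union, mem_inter]
        tauto) (by
        ext i
        simp only [mem_union, mem_inter]
        tauto) (by
        ext i
        simp only [mem_union, mem_inter]
        tauto)
    unfold hN
    linarith

/-- The Zhang–Yeung inequality for entropic functions. -/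
theorem entropic_zy {f : Finset (Fin n) → ℝ} (hf : IsEntropic f) (x y z u : Fin n) :
    2 * (f {z} + f {u} - f {z, u}) ≤
      (f {x} + f {y} - f {x, y}) + (f {x} + f {z, u} - f {x, z, u}) +
      3 * (f {x, z} + f {x, u} - f {x, z, u} - f {x}) +
      (f {y, z} + f {y, u} - f {y, z, u} - f {y}) := by
  obtain ⟨P, hP, h⟩ := hf
  have hlim : ∀ S, Tendsto (fun N => hN P N S / log 2) atTop (𝓝 (f S)) := by
    intro S
    rw [(h S).2]
    exact hN_tendsto hP S (h S).1
  have hw : ∀ N, ∀ a : box n N, 0 ≤ P a := fun N a => hP.1 a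
  refine le_of_tendsto_of_tendsto'
    ((((hlim {z}).add (hlim {u})).sub (hlim {z, u})).const_mul 2)
    ((((((hlim {x}).add (hlim {y})).sub (hlim {x, y})).add
      (((hlim {x}).add (hlim {z, u})).sub (hlim {x, z, u}))).add
      ((((((hlim {x, z}).add (hlim {x, u})).sub (hlim {x, z, u})).sub (hlim {x}))).const_mul 3)).add
      ((((hlim {y, z}).add (hlim {y, u})).sub (hlim {y, z, u})).sub (hlim {y}))) fun N => ?_
  have hc : ∀ T : Finset (Fin 4), HV (fun a : box n N => P a)
      (fun (j : Fin 4) (a : box n N) => (a : Fin n → ℕ) ((![x, y, z, u] : Fin 4 → Fin n) j)) T =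
        hN P N (T.image (![x, y, z, u] : Fin 4 → Fin n)) := fun T =>
    HV_comp (fun a : box n N => P a) (fun i a => (a : Fin n → ℕ) i) _ T
  have key := zhang_yeung (fun a : box n N => P a) (hw N)
    (fun (j : Fin 4) (a : box n N) => (a : Fin n → ℕ) ((![x, y, z, u] : Fin 4 → Fin n) j))
  simp only [hc] at key
  have i0 : image (![x, y, z, u] : Fin 4 → Fin n) {0} = {x} := by simp
  have i1 : image (![x, y, z, u] : Fin 4 → Fin n) {1} = {y} := by simp
  have i2 : image (![x, y, z, u] : Fin 4 → Fin n) {2} = {z} := by simp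
  have i3 : image (![x, y, z, u] : Fin 4 → Fin n) {3} = {u} := by simp
  have i01 : image (![x, y, z, u] : Fin 4 → Fin n) {0, 1} = {x, y} := by simp [image_insert]
  have i02 : image (![x, y, z, u] : Fin 4 → Fin n) {0, 2} = {x, z} := by simp [image_insert]
  have i03 : image (![x, y, z, u] : Fin 4 → Fin n) {0, 3} = {x, u} := by simp [image_insert]
  have i12 : image (![x, y, z, u] : Fin 4 → Fin n) {1, 2} = {y, z} := by simp [image_insert]
  have i13 : image (![x, y, z, u] : Fin 4 → Fin n) {1, 3} = {y, u} := by simp [image_insert]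
  have i23 : image (![x, y, z, u] : Fin 4 → Fin n) {2, 3} = {z, u} := by simp [image_insert]
  have i023 : image (![x, y, z, u] : Fin 4 → Fin n) {0, 2, 3} = {x, z, u} := by
    simp [image_insert]
  have i123 : image (![x, y, z, u] : Fin 4 → Fin n) {1, 2, 3} = {y, z, u} := by
    simp [image_insert]
  rw [i0, i1, i2, i3, i01, i02, i03, i12, i13, i23, i023, i123] at key
  have key2 := div_le_div_of_nonneg_right key log2_pos.le
  calc _ = (2 * (hN P N {z} + hN P N {u} - hN P N {z, u})) / log 2 := by ring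
    _ ≤ _ := key2
    _ = _ := by ring

end Pool.Agent.Q333.SC
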